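import Pool.Agent.MP_882061_an.Mg.Final

open Pool.Agent.MP_882061_an in
/-- For `d = 3` and all small `p > 0` the second order Riesz boundary map `T_2` on `H^p(R^3)` is
not an isomorphic embedding, is not one-to-one, and is onto `(L^p(R^3))^9`. -/
theorem Pool.Agent.Results.MP_882061_an.OntoNotInjective.result :
    ∃ p₀ : ℝ, 0 < p₀ ∧ p₀ < 1 ∧ ∀ p : ℝ, 0 < p → p ≤ p₀ →
      ¬ T2Embedding 3 p ∧ ¬ T2Injective 3 p ∧ T2Onto 3 p :=
  main
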